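import Pool.Agent.Lib.MP_1acd66_nt.Conic.Limit

/-!
The asymptotic formula predicted by Manin and Peyre for the variety of complete conics (the blow-up
of `P⁵` along the Veronese surface, the wonderful compactification of `PGL₃ / PO₃`) over `ℚ`, a
smooth Fano fivefold of Picard rank `2`, for every adelic anticanonical height; the points removed
are those on the two boundary divisors, so that the points counted are the smooth conics.
-/

namespace Pool.Agent.Results.MP_1acd66_nt.CompleteConics

open Filter Topology Pool.Agent.Lib.MP_1acd66_nt.Conic

theorem result (h : AdelicNorm) :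
    (∀ B : ℝ, (countSet h B).Finite) ∧ ∃ c : ℝ, 0 < c ∧
      Tendsto (fun B : ℝ => ((countSet h B).ncard : ℝ) / (B * Real.log B)) atTop (𝓝 c) :=
  main h

end Pool.Agent.Results.MP_1acd66_nt.CompleteConics
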