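import Pool.Agent.Lib.MP_1acd66_nt.AR.Final6

/-!
Manin's conjecture, with a positive constant, over the rationals, for the projective bundles over
products of Grassmannians given by homogeneous polynomial representations:
`V = P(ρ(S_1, …, S_k))` for a representation `ρ` of `GL(r_1) × … × GL(r_k)` of dimension greater
than the sum of the `r_i ^ 2 - 1`, or with a nonconstant semi-invariant polynomial, or without
birational critical pairs.
-/

namespace Pool.Agent.Results.MP_1acd66_nt.EveryRepresentation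

open Filter Topology Pool.Agent.Lib.MP_1acd66_nt Pool.Agent.Lib.MP_1acd66_nt.AR

theorem result {k : ℕ} (r N : Fin k → ℕ) (hr : ∀ i, 0 < r i) (hN : ∀ i, r i < N i)
    {W : Type} [Fintype W] (ρ : Gen.FRep r W) (hdeg : ∀ i, 0 < ρ.deg i)
    (hW : 2 ≤ Fintype.card W) (hb : ∀ i, ρ.b i ≤ N i)
    (hm : ∑ i, (r i ^ 2 - 1) < Fintype.card W ∨ HasInv ρ ∨ NoBir ρ)
    (h : Gen.AdelicNorm N ρ.toRepData) :
    (∀ B, (Gen.countSet (Good3 ρ) h B).Finite) ∧
      ∃ c : ℝ, 0 < c ∧
        Tendsto (fun B : ℝ =>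
          ((Gen.countSet (Good3 ρ) h B).ncard : ℝ) / (B * Real.log B ^ k)) atTop (𝓝 c) :=
  final6 r N hr hN ρ hdeg hW hb hm h

end Pool.Agent.Results.MP_1acd66_nt.EveryRepresentation
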