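import Pool.Agent.Lib.MP_1acd66_nt.Gen.MatMain

/-!
The asymptotic formula predicted by Manin and Peyre for the projective bundles of matrices of the
three classical types over Grassmannians: `P(S₁ ⊗ S₂)` over `G(n,N₁) × G(n,N₂)` (general
matrices), `P(Sym² S)` over `G(n,N)` (symmetric matrices), `P(Λ² S)` over `G(n,N)` (alternating
matrices), over `ℚ`, for every adelic anticanonical height, on the open set of the nonsingular
matrices.
-/

namespace Pool.Agent.Results.MP_1acd66_nt.MatrixBundle

open Filter Topology Pool.Agent.Lib.MP_1acd66_nt.Gen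

theorem result (t : MatType) (n : ℕ) (hn : t.Size n) (N : Fin t.k → ℕ) (hN : ∀ i, n < N i)
    (h : AdelicNorm N (t.rep n)) :
    (∀ B, (countSet t.Good h B).Finite) ∧ ∃ c : ℝ, 0 < c ∧
      Tendsto (fun B : ℝ => ((countSet t.Good h B).ncard : ℝ) / (B * Real.log B ^ t.k))
        atTop (𝓝 c) :=
  matMain t n hn N hN h

end Pool.Agent.Results.MP_1acd66_nt.MatrixBundle
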