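import Pool.Agent.Lib.MP_1acd66_nt.Tw.Points

/-!
The asymptotic formula predicted by Manin and Peyre for the blow-up of `P³` along the twisted cubic
(the Fano threefold number 2.27 of Mori and Mukai) over `ℚ`, a smooth Fano threefold of Picard rank
`2` with automorphism group `PGL₂`, for every adelic anticanonical height; the points removed are
those on the exceptional divisor.
-/

namespace Pool.Agent.Results.MP_1acd66_nt.TwistedCubic

open Filter Topology Pool.Agent.Lib.MP_1acd66_nt.Tw

theorem result (h : AdelicNorm) :
    (∀ B : ℝ, (countSet h B).Finite) ∧ ∃ c : ℝ, 0 < c ∧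
      Tendsto (fun B : ℝ => ((countSet h B).ncard : ℝ) / (B * Real.log B)) atTop (𝓝 c) :=
  main h

end Pool.Agent.Results.MP_1acd66_nt.TwistedCubic
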